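import Pool.Agent.Helper70.EC.St

/-! Project EC, module EX: exact solvability in nondegenerate position. -/

set_option autoImplicit false

namespace Pool.Agent.Helper28.EC

open Pool.Agent.Helper70.EC
open Pool.Agent.Helper1.PFS

section

variable {p : ℕ} [Fact p.Prime]

private lemma ne_EX (x y : Pt p) (h : x ≠ y) : ((kk x)⁻¹ * kk y).1 1 0 ≠ 0 := by
  intro h0
  have h1 := smul_inf_zero _ h0
  rw [mul_smul, kk_smul, inv_smul_eq_iff, kk_smul] at h1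
  exact h h1.symm

private lemma bor_EX (c : (ZMod p)ˣ) (s : ZMod p) : (mm c * uu s : G p).1 0 0 = c ∧
    (mm c * uu s : G p).1 0 1 = c * s ∧ (mm c * uu s : G p).1 1 0 = 0 ∧
    (mm c * uu s : G p).1 1 1 = (c : ZMod p)⁻¹ := by
  obtain ⟨m00, m01, m10, m11⟩ := mm_apply c
  obtain ⟨u00, u01, u10, u11⟩ := uu_apply s
  refine ⟨?_, ?_, ?_, ?_⟩ <;>
    simp only [mul_apply, m00, m01, m10, m11, u00, u01, u10, u11, Units.val_inv_eq_inv_val] <;> ring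

private lemma key_EX (P Q R : G p) (hP : P.1 1 0 ≠ 0) (hQ : Q.1 1 0 ≠ 0) (hR : R.1 1 0 ≠ 0)
    (c₁ c₂ c₃ : (ZMod p)ˣ) : ∃ s₁ s₂ s₃ : ZMod p,
      mm c₁ * uu s₁ * (P * (mm c₂ * uu s₂ * Q)) = R * (mm c₃ * uu s₃) := by
  have k1 : (c₁ : ZMod p) ≠ 0 := c₁.ne_zero
  have k2 : (c₂ : ZMod p) ≠ 0 := c₂.ne_zero
  have k3 : (c₃ : ZMod p) ≠ 0 := c₃.ne_zero
  set q : ZMod p := (c₂ : ZMod p)⁻¹ * Q.1 1 0 with hq
  set u : ZMod p := (c₁ * c₃ * R.1 1 0 - P.1 1 1 * q) * (P.1 1 0)⁻¹ with hu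
  set s₂ : ZMod p := (u * (c₂ : ZMod p)⁻¹ - Q.1 0 0) * (Q.1 1 0)⁻¹ with hs2
  set v : ZMod p := P.1 0 0 * u + P.1 0 1 * q with hv
  set w : ZMod p := c₁ * c₃ * R.1 1 0 with hw
  have hw0 : w ≠ 0 := mul_ne_zero (mul_ne_zero k1 k3) hR
  set s₁ : ZMod p := (c₃ * R.1 0 0 * (c₁ : ZMod p)⁻¹ - v) * w⁻¹ with hs1
  obtain ⟨a00, a01, a10, a11⟩ := bor_EX c₁ s₁
  obtain ⟨b00, b01, b10, b11⟩ := bor_EX c₂ s₂
  have e1 : c₂ * Q.1 0 0 + c₂ * s₂ * Q.1 1 0 = u := by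
    have : s₂ * Q.1 1 0 = u * (c₂ : ZMod p)⁻¹ - Q.1 0 0 := by
      rw [hs2, inv_mul_cancel_right₀ hQ]
    have h2 : (c₂ : ZMod p) * (c₂ : ZMod p)⁻¹ = 1 := mul_inv_cancel₀ k2
    linear_combination (c₂ : ZMod p) * this + u * h2
  have e2 : P.1 1 0 * u + P.1 1 1 * q = w := by
    have : u * P.1 1 0 = w - P.1 1 1 * q := by
      rw [hu, inv_mul_cancel_right₀ hP]
    linear_combination this
  have e3 : c₁ * v + c₁ * s₁ * w = c₃ * R.1 0 0 := by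
    have : s₁ * w = c₃ * R.1 0 0 * (c₁ : ZMod p)⁻¹ - v := by
      rw [hs1, inv_mul_cancel_right₀ hw0]
    have h2 : (c₁ : ZMod p) * (c₁ : ZMod p)⁻¹ = 1 := mul_inv_cancel₀ k1
    linear_combination (c₁ : ZMod p) * this + c₃ * R.1 0 0 * h2
  set g : G p := mm c₁ * uu s₁ * (P * (mm c₂ * uu s₂ * Q)) with hg
  have f0 : (mm c₂ * uu s₂ * Q : G p).1 0 0 = u := by
    rw [mul_apply, b00, b01]; exact e1
  have f1 : (mm c₂ * uu s₂ * Q : G p).1 1 0 = q := by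
    rw [mul_apply, b10, b11, hq]; ring
  have g0 : g.1 0 0 = c₃ * R.1 0 0 := by
    rw [hg, mul_apply, a00, a01, mul_apply P, mul_apply P, f0, f1, e2]; exact e3
  have g1 : g.1 1 0 = c₃ * R.1 1 0 := by
    rw [hg, mul_apply, a10, a11, mul_apply P, mul_apply P, f0, f1, e2, hw]
    have h2 : (c₁ : ZMod p)⁻¹ * (c₁ : ZMod p) = 1 := inv_mul_cancel₀ k1
    linear_combination (c₃ : ZMod p) * R.1 1 0 * h2
  have hn : (c₃ : ZMod p) * R.1 1 0 ≠ 0 := mul_ne_zero k3 hR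
  set s₃ : ZMod p := (g.1 1 1 - R.1 1 1 * (c₃ : ZMod p)⁻¹) * (c₃ * R.1 1 0)⁻¹ with hs3
  obtain ⟨d00, d01, d10, d11⟩ := bor_EX c₃ s₃
  have r00 : (R * (mm c₃ * uu s₃) : G p).1 0 0 = g.1 0 0 := by
    rw [mul_apply, d00, d10, g0]; ring
  have r10 : (R * (mm c₃ * uu s₃) : G p).1 1 0 = g.1 1 0 := by
    rw [mul_apply, d00, d10, g1]; ring
  have r11 : (R * (mm c₃ * uu s₃) : G p).1 1 1 = g.1 1 1 := by
    rw [mul_apply, d01, d11]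
    have : s₃ * (c₃ * R.1 1 0) = g.1 1 1 - R.1 1 1 * (c₃ : ZMod p)⁻¹ := by
      rw [hs3, inv_mul_cancel_right₀ hn]
    linear_combination this
  refine ⟨s₁, s₂, s₃, ?_⟩
  refine (G_ext r00 ?_ r10 r11).symm
  have d1 := det_eq (R * (mm c₃ * uu s₃) : G p)
  have d2 := det_eq g
  rw [r00, r10, r11] at d1
  have hn' : g.1 1 0 ≠ 0 := by rw [g1]; exact hn
  have h3 : (R * (mm c₃ * uu s₃) : G p).1 0 1 * g.1 1 0 = g.1 0 1 * g.1 1 0 := by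
    linear_combination d2 - d1
  exact mul_right_cancel₀ hn' h3

end

/-- module EX (no hypotheses needed) -/
theorem hEX : StEX := by
  intro p _ x₁ y₁ x₂ y₂ x₃ y₃ h1 h2 h3 c₁ c₂ c₃
  obtain ⟨s₁, s₂, s₃, h⟩ := key_EX ((kk x₁)⁻¹ * kk y₂) ((kk x₂)⁻¹ * kk x₃) ((kk y₁)⁻¹ * kk y₃)
    (ne_EX _ _ h1) (ne_EX _ _ h2) (ne_EX _ _ h3) c₁ c₂ c₃
  refine ⟨s₁, s₂, s₃, ?_⟩
  unfold bp
  have h' := congrArg (fun g => kk y₁ * g * (kk x₃)⁻¹) h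
  calc kk y₁ * (mm c₁ * uu s₁) * (kk x₁)⁻¹ * (kk y₂ * (mm c₂ * uu s₂) * (kk x₂)⁻¹)
      = kk y₁ * (mm c₁ * uu s₁ * ((kk x₁)⁻¹ * kk y₂ * (mm c₂ * uu s₂ * ((kk x₂)⁻¹ * kk x₃)))) *
        (kk x₃)⁻¹ := by group
    _ = kk y₁ * ((kk y₁)⁻¹ * kk y₃ * (mm c₃ * uu s₃)) * (kk x₃)⁻¹ := h'
    _ = kk y₃ * (mm c₃ * uu s₃) * (kk x₃)⁻¹ := by group

end Pool.Agent.Helper28.EC
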